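import Pool.Agent.Y162.CV.Glue

/-!
# The involution on `p`-convolvers of groups containing a non-abelian free group

For every real `p > 1` with `p ≠ 2` and every group `G` that contains a copy of the free group of
rank two there is a function `f : G → ℂ` which convolves `ℓ^p(G)` boundedly while its adjoint
`f*(x) = conj f(x⁻¹)` does not.  The conclusion is literally the one of the frozen statement
`S05239`; the hypothesis of having no invariant mean is replaced by containing a free group of rank two.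
-/

set_option autoImplicit false
set_option linter.unusedSectionVars false

namespace Pool.Agent.Y162.CV

open scoped ENNReal
open Finset

variable {G : Type} [Group G]

/-- `f` is a `p`-convolver -/
def Conv (p : ℝ) (f : G → ℂ) : Prop :=
  ∃ C : ℝ, ∀ ξ : G →₀ ℂ,
    Summable (fun g : G => ‖∑ k ∈ ξ.support, f (g * k⁻¹) * ξ k‖ ^ p) ∧
    ∑' g : G, ‖∑ k ∈ ξ.support, f (g * k⁻¹) * ξ k‖ ^ p ≤ C * ∑ k ∈ ξ.support, ‖ξ k‖ ^ p

lemma toReal_enorm_rpow (z : ℂ) (p : ℝ) : (‖z‖ₑ ^ p).toReal = ‖z‖ ^ p := by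
  rw [← ENNReal.toReal_rpow, toReal_enorm]

lemma conv_of_CB {p : ℝ} (hp : 0 < p) (U : G → ℝ≥0∞) (hU : ∀ g, U g ≠ ∞) {C : ℝ≥0∞} (hC : C ≠ ∞)
    (h : CB p U C) : Conv p (fun g => ((U g).toReal : ℂ)) := by
  refine ⟨C.toReal, fun ξ => ?_⟩
  let η : G → ℝ≥0∞ := fun g => ‖ξ g‖ₑ
  have hη : Nice η := by
    refine ⟨(ξ.support.finite_toSet).subset ?_, fun g => enorm_ne_top⟩
    intro g hg
    simp only [η, Function.mem_support, ne_eq, enorm_eq_zero] at hg
    simpa using hg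
  have h1 := h η hη
  have e1 : ∑' k, η k ^ p = ∑ k ∈ ξ.support, ‖ξ k‖ₑ ^ p := by
    rw [tsum_eq_sum (s := ξ.support)]
    intro k hk
    have : ξ k = 0 := by simpa using hk
    simp [η, this, hp]
  have h2 : ∑' g, ‖∑ k ∈ ξ.support, ((U (g * k⁻¹)).toReal : ℂ) * ξ k‖ₑ ^ p ≤
      C * ∑ k ∈ ξ.support, ‖ξ k‖ₑ ^ p := by
    rw [← e1]
    refine le_trans (ENNReal.tsum_le_tsum fun g => ENNReal.rpow_le_rpow ?_ hp.le) h1
    refine (enorm_sum_le _ _).trans ?_
    refine le_trans (Finset.sum_le_sum fun k _ => ?_)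
      (ENNReal.sum_le_tsum (f := fun k => U (g * k⁻¹) * η k) ξ.support)
    rw [enorm_mul]
    refine mul_le_mul' (le_of_eq ?_) le_rfl
    rw [← ofReal_norm_eq_enorm, Complex.norm_real, Real.norm_eq_abs,
      abs_of_nonneg ENNReal.toReal_nonneg, ENNReal.ofReal_toReal (hU _)]
  have h3 : C * ∑ k ∈ ξ.support, ‖ξ k‖ₑ ^ p ≠ ∞ := by
    refine ENNReal.mul_ne_top hC ?_
    exact (ENNReal.sum_lt_top.mpr fun k _ => (ENNReal.rpow_ne_top_of_nonneg hp.le enorm_ne_top).lt_top).ne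
  have h4 := ne_top_of_le_ne_top h3 h2
  constructor
  · have := ENNReal.summable_toReal h4
    simpa only [toReal_enorm_rpow] using this
  · have h5 := ENNReal.toReal_mono h3 h2
    rw [ENNReal.tsum_toReal_eq (fun g => ENNReal.rpow_ne_top_of_nonneg hp.le enorm_ne_top),
      ENNReal.toReal_mul, ENNReal.toReal_sum
      (fun k _ => ENNReal.rpow_ne_top_of_nonneg hp.le enorm_ne_top)] at h5
    simpa only [toReal_enorm_rpow] using h5

lemma CB_of_conv {p : ℝ} (hp : 0 < p) (U : G → ℝ≥0∞) (hU : ∀ g, U g ≠ ∞)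
    (h : Conv p (fun g => ((U g).toReal : ℂ))) : ∃ C, C ≠ ∞ ∧ CB p U C := by
  obtain ⟨C, hC⟩ := h
  refine ⟨ENNReal.ofReal C, ENNReal.ofReal_ne_top, fun η hη => ?_⟩
  let ξ : G →₀ ℂ := Finsupp.ofSupportFinite (fun g => ((η g).toReal : ℂ)) (by
    refine hη.1.subset ?_
    intro g hg hg2
    apply hg
    simp [hg2])
  have hξ : ∀ g, ξ g = ((η g).toReal : ℂ) := fun g => rfl
  have hsupp : ∀ g, g ∉ ξ.support → η g = 0 := by
    intro g hg
    have : ξ g = 0 := by simpa using hg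
    rw [hξ] at this
    have h2 : (η g).toReal = 0 := by exact_mod_cast this
    rcases (ENNReal.toReal_eq_zero_iff _).mp h2 with h | h
    · exact h
    · exact absurd h (hη.2 g)
  obtain ⟨h1, h2⟩ := hC ξ
  have e1 : ∀ g, ENNReal.ofReal (‖∑ k ∈ ξ.support, ((U (g * k⁻¹)).toReal : ℂ) * ξ k‖ ^ p) =
      (∑' k, U (g * k⁻¹) * η k) ^ p := by
    intro g
    have e2 : ∑' k, U (g * k⁻¹) * η k = ∑ k ∈ ξ.support, U (g * k⁻¹) * η k :=
      tsum_eq_sum (fun k hk => by rw [hsupp k hk, mul_zero])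
    have e3 : ∑ k ∈ ξ.support, ((U (g * k⁻¹)).toReal : ℂ) * ξ k =
        (((∑ k ∈ ξ.support, U (g * k⁻¹) * η k).toReal : ℝ) : ℂ) := by
      rw [ENNReal.toReal_sum (fun k _ => ENNReal.mul_ne_top (hU _) (hη.2 _))]
      push_cast
      refine Finset.sum_congr rfl fun k _ => ?_
      rw [ENNReal.toReal_mul, hξ]; push_cast; rfl
    rw [e2, e3, Complex.norm_real, Real.norm_eq_abs, abs_of_nonneg ENNReal.toReal_nonneg,
      ← ENNReal.ofReal_rpow_of_nonneg ENNReal.toReal_nonneg hp.le, ENNReal.ofReal_toReal]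
    exact (ENNReal.sum_lt_top.mpr fun k _ => (ENNReal.mul_ne_top (hU _) (hη.2 _)).lt_top).ne
  have e4 : ENNReal.ofReal (∑ k ∈ ξ.support, ‖ξ k‖ ^ p) = ∑' k, η k ^ p := by
    rw [ENNReal.ofReal_sum_of_nonneg (fun k _ => by positivity),
      tsum_eq_sum (s := ξ.support) (fun k hk => by rw [hsupp k hk, ENNReal.zero_rpow_of_pos hp])]
    refine Finset.sum_congr rfl fun k _ => ?_
    rw [hξ, Complex.norm_real, Real.norm_eq_abs, abs_of_nonneg ENNReal.toReal_nonneg,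
      ← ENNReal.ofReal_rpow_of_nonneg ENNReal.toReal_nonneg hp.le, ENNReal.ofReal_toReal (hη.2 k)]
  calc ∑' g, (∑' k, U (g * k⁻¹) * η k) ^ p
      = ∑' g, ENNReal.ofReal (‖∑ k ∈ ξ.support, ((U (g * k⁻¹)).toReal : ℂ) * ξ k‖ ^ p) :=
        tsum_congr fun g => (e1 g).symm
    _ = ENNReal.ofReal (∑' g, ‖∑ k ∈ ξ.support, ((U (g * k⁻¹)).toReal : ℂ) * ξ k‖ ^ p) :=
        (ENNReal.ofReal_tsum_of_nonneg (fun g => by positivity) h1).symm
    _ ≤ ENNReal.ofReal (C * ∑ k ∈ ξ.support, ‖ξ k‖ ^ p) := ENNReal.ofReal_le_ofReal h2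
    _ = ENNReal.ofReal C * ∑' k, η k ^ p := by
        rw [← e4, ENNReal.ofReal_mul' (Finset.sum_nonneg fun k _ => by positivity)]

end Pool.Agent.Y162.CV

namespace Pool.Agent.Results.MP_830418_an.ConvolverAsymmetry

open Pool.Agent.Y162.CV

/-- For every real `p > 1`, `p ≠ 2`, and every group `G` containing a copy of the free group of
rank two, some `f : G → ℂ` convolves `ℓ^p(G)` boundedly (on finitely supported inputs) but
`f*(x) = conj f(x⁻¹)` does not. -/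
theorem result :
    ∀ p : ℝ, 1 < p → p ≠ 2 → ∀ (G : Type) [Group G],
      (∃ φ : FreeGroup (Fin 2) →* G, Function.Injective φ) →
      ∃ f : G → ℂ,
        (∃ C : ℝ, ∀ ξ : G →₀ ℂ,
          Summable (fun g : G => ‖∑ k ∈ ξ.support, f (g * k⁻¹) * ξ k‖ ^ p) ∧
          ∑' g : G, ‖∑ k ∈ ξ.support, f (g * k⁻¹) * ξ k‖ ^ p
            ≤ C * ∑ k ∈ ξ.support, ‖ξ k‖ ^ p) ∧
        ¬ (∃ C : ℝ, ∀ ξ : G →₀ ℂ,
          Summable (fun g : G =>
            ‖∑ k ∈ ξ.support, starRingEnd ℂ (f ((g * k⁻¹)⁻¹)) * ξ k‖ ^ p) ∧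
          ∑' g : G, ‖∑ k ∈ ξ.support, starRingEnd ℂ (f ((g * k⁻¹)⁻¹)) * ξ k‖ ^ p
            ≤ C * ∑ k ∈ ξ.support, ‖ξ k‖ ^ p) := by
  intro p hp hp2 G _ hG
  have hp0 : 0 < p := by linarith
  obtain ⟨P⟩ := exists_PP G hG
  obtain ⟨U, hU, hCB, hno⟩ := glue hp.le (fun R => asym P hp hp2 R)
  refine ⟨fun g => ((U g).toReal : ℂ), conv_of_CB hp0 U hU ENNReal.one_ne_top hCB, ?_⟩
  intro h
  have h' : Conv p (fun g => ((U g⁻¹).toReal : ℂ)) := by
    have e : ∀ g : G, starRingEnd ℂ (((U g).toReal : ℂ)) = ((U g).toReal : ℂ) :=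
      fun g => Complex.conj_ofReal _
    simpa only [e, Conv] using h
  obtain ⟨C, hC, hC2⟩ := CB_of_conv hp0 (fun g => U g⁻¹) (fun g => hU _) h'
  exact hno C hC hC2

end Pool.Agent.Results.MP_830418_an.ConvolverAsymmetry
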